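import Pool.Agent.K1H34.HYC.Stm

set_option autoImplicit false
open Classical Finset

/-!
# Project HYC, piece NEG: negative dependence of random injections
-/

namespace Pool.Agent.K1H2.HYC

open Pool.Agent.K1H34.HYC

theorem mem_Inj {X I : Type} [Fintype X] (cl : X → I) (Pal : I → Finset ℕ) (f : X → ℕ) :
    f ∈ Inj cl Pal ↔ (∀ x, f x ∈ Pal (cl x)) ∧ ∀ x y, cl x = cl y → f x = f y → x = y := by
  unfold Inj
  rw [mem_filter, Fintype.mem_piFinset]

theorem step {X I : Type} [Fintype X] (cl : X → I) (Pal : I → Finset ℕ) (s : ℕ) (x : X) (l : ℕ)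
    (τ : Finset (X × ℕ)) (T : Finset (Finset (X × ℕ))) (hx : (x, l) ∉ τ)
    (hP : s + τ.card ≤ (Pal (cl x)).card)
    (hT : ∀ τ' ∈ T, ∀ z' ∈ τ', x ≠ z'.1 ∧ (cl x = cl z'.1 → l ≠ z'.2)) :
    ((Inj cl Pal).filter (fun f => (∀ z ∈ insert (x, l) τ, f z.1 = z.2) ∧
      ∀ τ' ∈ T, ¬ ∀ z ∈ τ', f z.1 = z.2)).card * s ≤
    ((Inj cl Pal).filter (fun f => (∀ z ∈ τ, f z.1 = z.2) ∧
      ∀ τ' ∈ T, ¬ ∀ z ∈ τ', f z.1 = z.2)).card := by
  have hL : s ≤ (Pal (cl x) \ τ.image Prod.snd).card := by
    have h1 : (Pal (cl x)).card - (τ.image Prod.snd).card ≤ (Pal (cl x) \ τ.image Prod.snd).card :=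
      le_card_sdiff _ _
    have h2 : (τ.image Prod.snd).card ≤ τ.card := card_image_le
    omega
  refine (Nat.mul_le_mul_left _ hL).trans ?_
  rw [← card_product]
  have hval : ∀ (f : X → ℕ) (l' : ℕ) (y : X), f x = l →
      (if cl x = cl x then Equiv.swap l l' (f x) else f x) = l' := by
    intro f l' y hf
    rw [if_pos rfl, hf, Equiv.swap_apply_left]
  refine card_le_card_of_injOn
    (fun w y => if cl y = cl x then Equiv.swap l w.2 (w.1 y) else w.1 y) ?_ ?_
  · rintro ⟨f, l'⟩ hw
    rw [mem_coe, mem_product, mem_filter, mem_sdiff, mem_Inj] at hw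
    obtain ⟨⟨⟨hf1, hf2⟩, hf3, hf4⟩, hl1, hl2⟩ := hw
    simp only at hf1 hf2 hf3 hf4 hl1 hl2
    have hfx : f x = l := hf3 (x, l) (mem_insert_self _ _)
    have hlP : l ∈ Pal (cl x) := hfx ▸ hf1 x
    rw [mem_coe, mem_filter, mem_Inj]
    refine ⟨⟨?_, ?_⟩, ?_, ?_⟩
    · intro y
      dsimp only
      split_ifs with hy
      · rw [hy]
        by_cases h1 : f y = l
        · rw [h1, Equiv.swap_apply_left]
          exact hl1
        · by_cases h2 : f y = l'
          · rw [h2, Equiv.swap_apply_right]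
            exact hlP
          · rw [Equiv.swap_apply_of_ne_of_ne h1 h2, ← hy]
            exact hf1 y
      · exact hf1 y
    · intro y z hyz hg
      dsimp only at hg
      by_cases hy : cl y = cl x
      · rw [if_pos hy, if_pos (hyz ▸ hy)] at hg
        exact hf2 y z hyz ((Equiv.swap l l').injective hg)
      · rw [if_neg hy, if_neg (fun h => hy (hyz.trans h))] at hg
        exact hf2 y z hyz hg
    · intro z hz
      dsimp only
      have h1 : f z.1 = z.2 := hf3 z (mem_insert_of_mem hz)
      split_ifs with hy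
      · rw [h1]
        refine Equiv.swap_apply_of_ne_of_ne ?_ ?_
        · intro h2
          have h3 : z.1 = x := hf2 _ _ hy (by rw [h1, h2, hfx])
          apply hx
          rw [← h3, ← h2]
          exact hz
        · intro h2
          apply hl2
          rw [← h2]
          exact mem_image_of_mem _ hz
      · exact h1
    · intro τ' hτ' hall
      apply hf4 τ' hτ'
      intro z' hz'
      have h1 := hall z' hz'
      obtain ⟨h2, h3⟩ := hT τ' hτ' z' hz'
      dsimp only at h1
      split_ifs at h1 with hy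
      · have h4 : l ≠ z'.2 := h3 hy.symm
        have h5 : f z'.1 ≠ l := fun h => h2 (hf2 _ _ hy.symm (by rw [hfx, h]))
        by_cases h6 : f z'.1 = l'
        · rw [h6, Equiv.swap_apply_right] at h1
          exact absurd h1 h4
        · rwa [Equiv.swap_apply_of_ne_of_ne h5 h6] at h1
      · exact h1
  · rintro ⟨f, l'⟩ hw ⟨f₂, l₂⟩ hw₂ heq
    rw [mem_coe, mem_product, mem_filter] at hw hw₂
    simp only at hw hw₂ heq
    have hfx : f x = l := hw.1.2.1 (x, l) (mem_insert_self _ _)
    have hfx₂ : f₂ x = l := hw₂.1.2.1 (x, l) (mem_insert_self _ _)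
    have h1 := congrFun heq x
    simp only [if_true] at h1
    rw [hfx, hfx₂, Equiv.swap_apply_left, Equiv.swap_apply_left] at h1
    subst h1
    have h2 : f = f₂ := by
      funext y
      have h3 := congrFun heq y
      split_ifs at h3 with hy
      · exact (Equiv.swap l l').injective h3
      · exact h3
    rw [h2]

/-- NEG: negative dependence of random injections -/
theorem t_NEG : S_NEG := by
  intro X I _ cl Pal s τ T
  induction τ using Finset.induction_on with
  | empty =>
    intro _ _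
    rw [card_empty, pow_zero, mul_one]
    refine card_le_card ?_
    intro f hf
    rw [mem_filter] at hf ⊢
    exact ⟨hf.1, hf.2.2⟩
  | insert z τ hz ih =>
    intro hP hT
    obtain ⟨x, l⟩ := z
    rw [card_insert_of_notMem hz] at hP ⊢
    have h1 := ih (fun i => by have := hP i; omega)
      (fun τ' hτ' z hz' => hT τ' hτ' z (mem_insert_of_mem hz'))
    have h2 := step cl Pal s x l τ T hz (by have := hP (cl x); omega)
      (fun τ' hτ' z' hz' => hT τ' hτ' (x, l) (mem_insert_self _ _) z' hz')
    calc _ = ((Inj cl Pal).filter (fun f => (∀ z ∈ insert (x, l) τ, f z.1 = z.2) ∧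
          ∀ τ' ∈ T, ¬ ∀ z ∈ τ', f z.1 = z.2)).card * s * s ^ τ.card := by ring
      _ ≤ _ := (Nat.mul_le_mul_right _ h2).trans h1

end Pool.Agent.K1H2.HYC
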